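import Pool.Agent.Helper15.RA.GoalsK

/-!
# Project RA, packet V2: the Hecke algebra of a block inside `H`.
-/

set_option autoImplicit false

open LaurentPolynomial

noncomputable section

namespace Pool.Agent.Helper88.RA

open Pool.Agent.Helper15.RA

section general

variable {A W H : Type} [Ring H] [Algebra ℤ[T;T⁻¹] H] (b : Module.Basis W ℤ[T;T⁻¹] H) (R : Set W)

/-- membership in the span of a subset of the basis -/
theorem mem_span_iff (Z : H) : Z ∈ Submodule.span ℤ[T;T⁻¹] (b '' R) ↔ ∀ k, b.repr Z k ≠ 0 → k ∈ R := by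
  rw [Module.Basis.mem_span_image]
  constructor
  · intro h k hk
    exact h (Finset.mem_coe.2 (Finsupp.mem_support_iff.2 hk))
  · intro h k hk
    exact h k (Finsupp.mem_support_iff.1 (Finset.mem_coe.1 hk))

/-- the subalgebra of the elements with support in `R` -/
def sAlg (h1 : (1 : H) ∈ Submodule.span ℤ[T;T⁻¹] (b '' R))
    (hm : ∀ g ∈ R, ∀ g' ∈ R, b g * b g' ∈ Submodule.span ℤ[T;T⁻¹] (b '' R)) : Subalgebra ℤ[T;T⁻¹] H where
  carrier := Submodule.span ℤ[T;T⁻¹] (b '' R)
  mul_mem' := by
    intro x y hx hy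
    have h2 := Submodule.mul_mem_mul hx hy
    rw [Submodule.span_mul_span] at h2
    refine (Submodule.span_le.2 ?_) h2
    rintro _ ⟨_, ⟨g, hg, rfl⟩, _, ⟨g', hg', rfl⟩, rfl⟩
    exact hm g hg g' hg'
  add_mem' := fun hx hy => Submodule.add_mem _ hx hy
  algebraMap_mem' := by
    intro r
    rw [Algebra.algebraMap_eq_smul_one]
    exact Submodule.smul_mem _ _ h1

variable {b R}

theorem mem_sAlg {h1 : (1 : H) ∈ Submodule.span ℤ[T;T⁻¹] (b '' R)}
    {hm : ∀ g ∈ R, ∀ g' ∈ R, b g * b g' ∈ Submodule.span ℤ[T;T⁻¹] (b '' R)} {Z : H} :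
    Z ∈ sAlg b R h1 hm ↔ ∀ k, b.repr Z k ≠ 0 → k ∈ R := mem_span_iff b R Z

/-- the basis of the subalgebra -/
def sBasis (h1 : (1 : H) ∈ Submodule.span ℤ[T;T⁻¹] (b '' R))
    (hm : ∀ g ∈ R, ∀ g' ∈ R, b g * b g' ∈ Submodule.span ℤ[T;T⁻¹] (b '' R)) (f : A → W)
    (hf : Function.Injective f) (hR : R = Set.range f) : Module.Basis A ℤ[T;T⁻¹] (sAlg b R h1 hm) :=
  Module.Basis.ofRepr
    { toFun := fun Z => Finsupp.comapDomain f (b.repr Z.1) hf.injOn
      map_add' := by
        intro x y
        ext a
        simp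
      map_smul' := by
        intro p x
        ext1 a
        simp
      invFun := fun q => ⟨b.repr.symm (Finsupp.mapDomain f q), by
        classical
        rw [mem_sAlg]
        intro k hk
        rw [LinearEquiv.apply_symm_apply] at hk
        have h2 := Finsupp.mapDomain_support (Finsupp.mem_support_iff.2 hk)
        obtain ⟨a, _, ha⟩ := Finset.mem_image.1 h2
        rw [hR]
        exact ⟨a, ha⟩⟩
      left_inv := by
        intro Z
        apply Subtype.ext
        have h2 : (↑(b.repr Z.1).support : Set W) ⊆ Set.range f := by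
          intro k hk
          rw [← hR]
          exact mem_sAlg.1 Z.2 k (Finsupp.mem_support_iff.1 (Finset.mem_coe.1 hk))
        change b.repr.symm (Finsupp.mapDomain f (Finsupp.comapDomain f (b.repr Z.1) hf.injOn)) = Z.1
        rw [Finsupp.mapDomain_comapDomain f hf _ h2, LinearEquiv.symm_apply_apply]
      right_inv := by
        intro q
        change Finsupp.comapDomain f (b.repr (b.repr.symm (Finsupp.mapDomain f q))) hf.injOn = q
        rw [LinearEquiv.apply_symm_apply, Finsupp.comapDomain_mapDomain f hf] }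

theorem sBasis_apply (h1 : (1 : H) ∈ Submodule.span ℤ[T;T⁻¹] (b '' R))
    (hm : ∀ g ∈ R, ∀ g' ∈ R, b g * b g' ∈ Submodule.span ℤ[T;T⁻¹] (b '' R)) (f : A → W)
    (hf : Function.Injective f) (hR : R = Set.range f) (a : A) :
    ((sBasis h1 hm f hf hR a : sAlg b R h1 hm) : H) = b (f a) := by
  change b.repr.symm (Finsupp.mapDomain f (Finsupp.single a 1)) = b (f a)
  rw [Finsupp.mapDomain_single, Module.Basis.repr_symm_single_one]

theorem sBasis_repr (h1 : (1 : H) ∈ Submodule.span ℤ[T;T⁻¹] (b '' R))
    (hm : ∀ g ∈ R, ∀ g' ∈ R, b g * b g' ∈ Submodule.span ℤ[T;T⁻¹] (b '' R)) (f : A → W)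
    (hf : Function.Injective f) (hR : R = Set.range f) (Z : sAlg b R h1 hm) (a : A) :
    (sBasis h1 hm f hf hR).repr Z a = b.repr Z.1 (f a) := rfl

end general

/-- PACKET RA-V2. -/
theorem h_v2 : V_1 → N_I → H_1 → H_2 → H_3 → V_2 := by
  intro hV1 hNI hH1 hH2 hH3 I V W H _ _ _ M cs L hL π Γ hΓ D v
  obtain ⟨h, hh⟩ := (hH3 I W H M cs L hL D).2.1
  obtain ⟨v1, v2, v3, -⟩ := hV1 I V W H M cs L hL π Γ hΓ D h hh v
  obtain ⟨n1, n2, -⟩ := hNI I V W M cs π Γ hΓ v
  have t1 : D.t 1 = 1 := (hH1 I W H M cs L D.toHecke0).1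
  have semi := (hH2 I W H M cs L hL D).1
  have h1 : (1 : H) ∈ Submodule.span ℤ[T;T⁻¹] (D.t '' ((iota cs π v).range : Set W)) := by
    rw [← t1]
    exact Submodule.subset_span ⟨1, one_mem _, rfl⟩
  have hm : ∀ g ∈ ((iota cs π v).range : Set W), ∀ g' ∈ ((iota cs π v).range : Set W),
      D.t g * D.t g' ∈ Submodule.span ℤ[T;T⁻¹] (D.t '' ((iota cs π v).range : Set W)) := by
    intro g hg g' hg'
    rw [mem_span_iff]
    exact v1 g hg g' hg'
  have hR : ((iota cs π v).range : Set W) = Set.range (iota cs π v) := MonoidHom.coe_range _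
  have hbar : ∀ Z ∈ Submodule.span ℤ[T;T⁻¹] (D.t '' ((iota cs π v).range : Set W)),
      D.bar Z ∈ Submodule.span ℤ[T;T⁻¹] (D.t '' ((iota cs π v).range : Set W)) := by
    intro Z hZ
    induction hZ using Submodule.span_induction with
    | mem x hx =>
      obtain ⟨g, hg, rfl⟩ := hx
      rw [mem_span_iff]
      exact v2 g hg
    | zero => rw [map_zero]; exact Submodule.zero_mem _
    | add x y _ _ hx hy => rw [map_add]; exact Submodule.add_mem _ hx hy
    | smul p x _ hx => rw [semi]; exact Submodule.smul_mem _ _ hx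
  set S := sAlg D.t ((iota cs π v).range : Set W) h1 hm with hS
  set B := sBasis h1 hm (iota cs π v) n2 hR with hB
  have B1 : ∀ a, ((B a : S) : H) = D.t (iota cs π v a) := sBasis_apply h1 hm (iota cs π v) n2 hR
  have simp1 : ∀ i : {i // π i = v}, iota cs π v ((sub M π v).toCoxeterSystem.simple i) = cs.simple i.1 := by
    intro i
    unfold iota
    exact CoxeterSystem.lift_apply_simple _ _ i
  let Dv0 : Hecke0 (sub M π v).toCoxeterSystem (fun g => L (iota cs π v g)) S :=
    { t := B
      mul := by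
        intro w w' hw
        apply Subtype.ext
        rw [MulMemClass.coe_mul, B1, B1, B1, map_mul]
        apply D.mul
        rw [← map_mul, n1, n1, n1, hw]
      quad := by
        intro i
        apply Subtype.ext
        have := D.quad i.1
        rw [← simp1 i] at this
        simpa [B1] using this }
  let barS : S →+* S := RingHom.codRestrict (D.bar.comp S.val.toRingHom) S (fun x => hbar x.1 x.2)
  have bar1 : ∀ x : S, ((barS x : S) : H) = D.bar x.1 := fun x => rfl
  let Dv1 : Hecke1 (sub M π v).toCoxeterSystem (fun g => L (iota cs π v g)) S :=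
    { Dv0 with
      bar := barS
      bar_bar := by
        intro x
        apply Subtype.ext
        rw [bar1, bar1, D.bar_bar]
      bar_t := by
        intro n w
        have h3 := D.bar_t n (iota cs π v w)
        rw [← map_inv] at h3
        constructor
        · apply Subtype.ext
          have h4 := h3.1
          rw [MulMemClass.coe_mul, bar1]
          change D.bar (((T n : ℤ[T;T⁻¹]) • B w : S) : H) * ((B w⁻¹ : S) : H) = _
          rw [B1, SetLike.val_smul, B1, h4]
          rfl
        · apply Subtype.ext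
          have h4 := h3.2
          rw [MulMemClass.coe_mul, bar1]
          change ((B w⁻¹ : S) : H) * D.bar (((T n : ℤ[T;T⁻¹]) • B w : S) : H) = _
          rw [B1, SetLike.val_smul, B1, h4]
          rfl }
  let Dv : Hecke (sub M π v).toCoxeterSystem (fun g => L (iota cs π v g)) S :=
    { Dv1 with
      c := fun g => ⟨D.c (iota cs π v g), mem_sAlg.2 (v3 (iota cs π v g) ⟨g, rfl⟩)⟩
      bar_c := by
        intro w
        apply Subtype.ext
        exact D.bar_c (iota cs π v w)
      c_sub := by
        intro w y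
        have h3 := D.c_sub (iota cs π v w) (iota cs π v y)
        change DegLE (-1) (D.t.repr (D.c (iota cs π v w) - ((B w : S) : H)) (iota cs π v y))
        rw [B1]
        exact h3 }
  refine ⟨S, inferInstance, inferInstance, Dv, S.val, Subtype.val_injective, fun g => B1 g, fun g => rfl⟩

end Pool.Agent.Helper88.RA
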