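import Pool.Agent.Helper15.RA.GoalsR

/-!
# Project RA, packet RQ: finite dihedral groups with equal parameters.
-/

set_option autoImplicit false

open LaurentPolynomial

noncomputable section

namespace Pool.Agent.Helper88.RA

open Pool.Agent.Helper15.RA

section general

variable {W H : Type} [Ring H] [Algebra ℤ[T;T⁻¹] H]

omit [Algebra ℤ[T;T⁻¹] H] in
theorem XX_add_two (a b : H) (k : ℕ) : XX a b (k + 2) = a * XX b a (k + 1) - XX a b k := by
  rw [XX]

omit [Algebra ℤ[T;T⁻¹] H] in
theorem XX_zero (a b : H) : XX a b 0 = 0 := by rw [XX]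

omit [Algebra ℤ[T;T⁻¹] H] in
theorem XX_one (a b : H) : XX a b 1 = a := by rw [XX]

theorem XX_mul_left {a b : H} {δ : ℤ[T;T⁻¹]} (haa : a * a = δ • a) : ∀ k, a * XX a b k = δ • XX a b k := by
  intro k
  induction k using Nat.twoStepInduction with
  | zero => rw [XX_zero, mul_zero, smul_zero]
  | one => rw [XX_one, haa]
  | more k ih _ =>
    rw [XX_add_two, mul_sub, smul_sub, ih, ← mul_assoc, haa, smul_mul_assoc]

/-- the additive group `κ S + ℤ[v,v⁻¹] ω` -/
def Sg (κ : ℤ[T;T⁻¹]) (x : ℕ → H) (m : ℕ) (ω : H) : AddSubgroup H :=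
  AddSubgroup.closure ({Y | ∃ k, 1 ≤ k ∧ k + 1 ≤ m ∧ Y = κ • x k} ∪ {Y | ∃ r : ℤ[T;T⁻¹], Y = r • ω})

variable {κ δ : ℤ[T;T⁻¹]} {ci cj ω : H} {m : ℕ}

theorem Sg_x {x : ℕ → H} (k : ℕ) (h1 : 1 ≤ k) (h2 : k + 1 ≤ m) : κ • x k ∈ Sg κ x m ω :=
  AddSubgroup.subset_closure (Or.inl ⟨k, h1, h2, rfl⟩)

theorem Sg_ω {x : ℕ → H} (r : ℤ[T;T⁻¹]) : r • ω ∈ Sg κ x m ω :=
  AddSubgroup.subset_closure (Or.inr ⟨r, rfl⟩)

theorem Sg_step (hω : ci * ω = δ • ω) (hx : XX ci cj m = ω) {Y : H} (hY : Y ∈ Sg κ (XX cj ci) m ω) :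
    ci * Y ∈ Sg κ (XX ci cj) m ω := by
  unfold Sg at hY
  induction hY using AddSubgroup.closure_induction with
  | mem Y hY =>
    rcases hY with ⟨k, hk1, hk2, rfl⟩ | ⟨r, rfl⟩
    · obtain ⟨l, rfl⟩ : ∃ l, k = l + 1 := ⟨k - 1, by omega⟩
      have e1 : ci * XX cj ci (l + 1) = XX ci cj (l + 2) + XX ci cj l := by
        rw [XX_add_two]
        abel
      rw [mul_smul_comm, e1, smul_add]
      refine add_mem ?_ ?_
      · by_cases h3 : l + 2 + 1 ≤ m
        · exact Sg_x _ (by omega) h3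
        · have h4 : l + 2 = m := by omega
          rw [h4, hx]
          exact Sg_ω κ
      · rcases Nat.eq_zero_or_pos l with rfl | hl
        · rw [XX_zero, smul_zero]
          exact zero_mem _
        · exact Sg_x _ hl (by omega)
    · rw [mul_smul_comm, hω, smul_smul]
      exact Sg_ω _
  | zero => rw [mul_zero]; exact zero_mem _
  | add x y _ _ hx hy => rw [mul_add]; exact add_mem hx hy
  | neg x _ hx => rw [mul_neg]; exact neg_mem hx

theorem Sg_mul (hω : ci * ω = δ • ω) (hx : XX ci cj m = ω) (hω' : cj * ω = δ • ω) (hx' : XX cj ci m = ω)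
    {Y : H} (hY : ci * Y ∈ Sg κ (XX ci cj) m ω) : ∀ k,
    (Odd k → XX ci cj k * Y ∈ Sg κ (XX ci cj) m ω) ∧ (Even k → XX cj ci k * Y ∈ Sg κ (XX cj ci) m ω) := by
  intro k
  induction k using Nat.twoStepInduction with
  | zero =>
    refine ⟨fun h => absurd h (by decide), fun _ => ?_⟩
    rw [XX_zero, zero_mul]
    exact zero_mem _
  | one =>
    refine ⟨fun _ => ?_, fun h => absurd h (by decide)⟩
    rw [XX_one]
    exact hY
  | more k ih ih' =>
    constructor
    · intro h
      have h1 : Odd k := by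
        rcases h with ⟨r, hr⟩
        exact ⟨r - 1, by omega⟩
      have h2 : Even (k + 1) := h1.add_one
      rw [XX_add_two, sub_mul, mul_assoc]
      exact sub_mem (Sg_step hω hx (ih'.2 h2)) (ih.1 h1)
    · intro h
      have h1 : Even k := by
        rcases h with ⟨r, hr⟩
        exact ⟨r - 1, by omega⟩
      have h2 : Odd (k + 1) := h1.add_one
      rw [XX_add_two, sub_mul, mul_assoc]
      exact sub_mem (Sg_step hω' hx' (ih'.1 h2)) (ih.2 h1)

/-- the product of two middle elements -/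
def Gd (δ : ℤ[T;T⁻¹]) (x y : ℕ → H) (m : ℕ) (ω : H) (Y : H) : Prop :=
  ∃ κ : ℤ[T;T⁻¹], (κ = 1 ∨ κ = δ) ∧ (Y ∈ Sg κ x m ω ∨ Y ∈ Sg κ y m ω)

theorem Gd_symm {x y : ℕ → H} {Y : H} (h : Gd δ x y m ω Y) : Gd δ y x m ω Y := by
  obtain ⟨κ, h1, h2⟩ := h
  exact ⟨κ, h1, h2.symm⟩

theorem Gd_mul (hii : ci * ci = δ • ci) (hω : ci * ω = δ • ω)
    (hx : XX ci cj m = ω) (hω' : cj * ω = δ • ω) (hx' : XX cj ci m = ω) (k l : ℕ)
    (hl1 : 1 ≤ l) (hl2 : l + 1 ≤ m) :
    Gd δ (XX ci cj) (XX cj ci) m ω (XX ci cj k * XX ci cj l) ∧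
    Gd δ (XX ci cj) (XX cj ci) m ω (XX cj ci k * XX ci cj l) := by
  have e1 : ci * XX ci cj l ∈ Sg δ (XX ci cj) m ω := by
    rw [XX_mul_left hii]
    exact Sg_x _ hl1 hl2
  have e2 : cj * XX ci cj l ∈ Sg 1 (XX cj ci) m ω := by
    have e3 : XX ci cj l ∈ Sg 1 (XX ci cj) m ω := by
      have := Sg_x (κ := 1) (ω := ω) (x := XX ci cj) l hl1 hl2
      rwa [one_smul] at this
    exact Sg_step hω' hx' e3
  have f1 := Sg_mul hω hx hω' hx' e1 k
  have f2 := Sg_mul hω' hx' hω hx e2 k
  rcases Nat.even_or_odd k with hk | hk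
  · exact ⟨⟨1, Or.inl rfl, Or.inl (f2.2 hk)⟩, ⟨δ, Or.inr rfl, Or.inr (f1.2 hk)⟩⟩
  · exact ⟨⟨δ, Or.inr rfl, Or.inl (f1.1 hk)⟩, ⟨1, Or.inl rfl, Or.inr (f2.1 hk)⟩⟩

/-- the coordinates -/
theorem Sg_repr (b : Module.Basis W ℤ[T;T⁻¹] H) {x : ℕ → H} {p : ℕ → W} {w1 w0 : W}
    (hx : ∀ k, 1 ≤ k → k ≤ m → x k = b (p k)) (hω : ω = b w0) (hp : ∀ k, 1 ≤ k → k ≤ m → p k ≠ w1)
    (h01 : w0 ≠ w1) {Y : H} (hY : Y ∈ Sg κ x m ω) :
    (∀ z, z ≠ w0 → ∃ n : ℤ, b.repr Y z = κ * n) ∧ b.repr Y w1 = 0 := by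
  classical
  unfold Sg at hY
  induction hY using AddSubgroup.closure_induction with
  | mem Y hY =>
    rcases hY with ⟨k, hk1, hk2, rfl⟩ | ⟨r, rfl⟩
    · constructor
      · intro z _
        rw [map_smul, hx k hk1 (by omega), Module.Basis.repr_self, Finsupp.smul_apply, smul_eq_mul,
          Finsupp.single_apply]
        split_ifs
        · exact ⟨1, by simp⟩
        · exact ⟨0, by simp⟩
      · rw [map_smul, hx k hk1 (by omega), Module.Basis.repr_self, Finsupp.smul_apply, smul_eq_mul,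
          Finsupp.single_apply, if_neg (hp k hk1 (by omega)), mul_zero]
    · constructor
      · intro z hz
        refine ⟨0, ?_⟩
        rw [map_smul, hω, Module.Basis.repr_self, Finsupp.smul_apply, smul_eq_mul,
          Finsupp.single_apply, if_neg hz.symm]
        simp
      · rw [map_smul, hω, Module.Basis.repr_self, Finsupp.smul_apply, smul_eq_mul,
          Finsupp.single_apply, if_neg h01, mul_zero]
  | zero =>
    refine ⟨fun z _ => ⟨0, ?_⟩, ?_⟩
    · simp
    · simp
  | add x y _ _ hx hy =>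
    constructor
    · intro z hz
      obtain ⟨n, hn⟩ := hx.1 z hz
      obtain ⟨n', hn'⟩ := hy.1 z hz
      refine ⟨n + n', ?_⟩
      rw [map_add, Finsupp.add_apply, hn, hn']
      push_cast
      ring
    · rw [map_add, Finsupp.add_apply, hx.2, hy.2, add_zero]
  | neg x _ hx =>
    constructor
    · intro z hz
      obtain ⟨n, hn⟩ := hx.1 z hz
      refine ⟨-n, ?_⟩
      rw [map_neg, Finsupp.neg_apply, hn]
      push_cast
      ring
    · rw [map_neg, Finsupp.neg_apply, hx.2, neg_zero]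

end general

/-- the top coefficient of `dl a` -/
theorem dl_coeff {a : ℕ} (ha : 0 < a) : (dl a).coeff a = 1 := by
  unfold dl
  rw [AddMonoidAlgebra.coeff_add, Finsupp.add_apply, T_apply, T_apply, if_pos rfl, if_neg (by omega),
    add_zero]

/-- PACKET RA-RQ. -/
theorem h_rq (h1 : H_1) (h2 : H_2) (h3 : H_3) (rW : R_W) (rX : R_X) (rT : R_T) : R_Q := by
  classical
  intro I W H _ _ _ X hab
  have hm := X.hm
  have hMji : X.M X.j X.i = X.M X.i X.j := X.M.symmetric X.j X.i
  -- words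
  obtain ⟨lenp, top, ex, -, -, -, wL⟩ := rW I W X.M X.cs X.i X.j X.ne X.all (by omega)
  obtain ⟨lenq, -, -, -, -, -, -⟩ := rW I W X.M X.cs X.j X.i X.ne.symm (fun k => (X.all k).symm) (by omega)
  obtain ⟨L1, -, wL3, -⟩ := wL X.L X.wt
  rw [hMji] at lenq
  obtain ⟨xk, yk⟩ := rX I W H X hab
  obtain ⟨t1, t2, -, -, t5, t6, t7, t8⟩ := rT I W H X
  obtain ⟨b, hb, -, -⟩ := (h3 I W H X.M X.cs X.L X.wt X.D).1
  obtain ⟨-, -, -, c4, -, c6, -, c8, c9, c10⟩ := h2 I W H X.M X.cs X.L X.wt X.D
  obtain ⟨T1, -, -, -, -, -, tau1, tau0⟩ := h1 I W H X.M X.cs X.L X.D.toHecke0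
  have hxy : ∀ x y, X.h x y = b.repr (X.D.c x * X.D.c y) := by
    intro x y
    rw [X.isH x y]
    have e1 : ((X.h x y).sum fun z p => p • X.D.c z) = b.repr.symm (X.h x y) := by
      rw [Module.Basis.repr_symm_apply, Finsupp.linearCombination_apply]
      simp only [hb]
    rw [e1, LinearEquiv.apply_symm_apply]
  -- elements
  have hp0 : X.p 0 = 1 := rfl
  have hq0 : X.q 0 = 1 := rfl
  have hqm : X.q X.m = X.w0 := top.symm
  have hpk1 : ∀ k, 1 ≤ k → k ≤ X.m → X.p k ≠ 1 := by
    intro k hk1 hk2 h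
    have := lenp k hk2
    unfold Dih.p at h
    rw [h, X.cs.length_one] at this
    omega
  have hqk1 : ∀ k, 1 ≤ k → k ≤ X.m → X.q k ≠ 1 := by
    intro k hk1 hk2 h
    have := lenq k hk2
    unfold Dih.q at h
    rw [h, X.cs.length_one] at this
    omega
  have hm1 : X.m = X.M X.i X.j := rfl
  have w01 : X.w0 ≠ 1 := hpk1 X.m (by omega) le_rfl
  -- weights
  have Lp : ∀ k, k < X.m → X.L (X.p k) < X.L X.w0 := by
    have key : ∀ d k, k + (d + 1) = X.m → X.L (X.p k) < X.L X.w0 := by
      intro d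
      induction d with
      | zero =>
        intro k hk
        have := (wL3 k (by omega)).1
        have e : X.w0 = X.p (k + 1) := by
          have e' : k + 1 = X.m := by omega
          rw [e']; rfl
        rw [e]
        exact this
      | succ d ih =>
        intro k hk
        exact (wL3 k (by omega)).1.trans (ih (k + 1) (by omega))
    intro k hk
    exact key (X.m - k - 1) k (by omega)
  have Lq : ∀ k, k < X.m → X.L (X.q k) < X.L X.w0 := by
    intro k hk
    have h4 := (wL3 k (by omega)).2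
    rcases Nat.lt_or_ge (k + 1) X.m with h5 | h5
    · exact h4.trans (Lp (k + 1) h5)
    · have e : X.w0 = X.p (k + 1) := by
        have : k + 1 = X.m := by omega
        rw [this]; rfl
      rw [e]
      exact h4
  have cases : ∀ w, w = 1 ∨ w = X.w0 ∨ (∃ k, 1 ≤ k ∧ k + 1 ≤ X.m ∧ (w = X.p k ∨ w = X.q k)) := by
    intro w
    obtain ⟨k, hk, hw⟩ := ex w
    rcases Nat.eq_zero_or_pos k with rfl | hk0
    · left
      rcases hw with rfl | rfl <;> rfl
    · rcases Nat.lt_or_ge k X.m with h5 | h5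
      · exact Or.inr (Or.inr ⟨k, hk0, h5, hw⟩)
      · have : k = X.m := by omega
        subst this
        right; left
        rcases hw with rfl | rfl
        · rfl
        · exact hqm
  have Lw : ∀ w, w ≠ X.w0 → X.L w < X.L X.w0 := by
    intro w hw
    obtain ⟨k, hk, h4⟩ := ex w
    rcases h4 with rfl | rfl
    · exact Lp k (lt_of_le_of_ne hk (fun h => hw (by rw [h]; rfl)))
    · exact Lq k (lt_of_le_of_ne hk (fun h => hw (by rw [h]; exact hqm)))
  have p1 : X.p 1 = X.cs.simple X.i := by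
    change X.cs.simple X.i * 1 = _
    rw [mul_one]
  have q1 : X.q 1 = X.cs.simple X.j := by
    change X.cs.simple X.j * 1 = _
    rw [mul_one]
  have ha0 : 0 < X.a := by
    apply X.wt.pos
    intro h
    have := X.cs.length_simple X.i
    rw [h, X.cs.length_one] at this
    omega
  have haL : X.a < X.L X.w0 := by
    have := Lp 1 (by omega)
    rwa [p1] at this
  -- the products
  have hii : X.ci * X.ci = dl X.a • X.ci := c10 X.i
  have hjj : X.cj * X.cj = dl X.a • X.cj := by
    rw [hab]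
    exact c10 X.j
  have t2' : X.cj * X.D.c X.w0 = dl X.a • X.D.c X.w0 := by
    rw [hab]
    exact t2
  have xm : XX X.ci X.cj X.m = X.D.c X.w0 := xk X.m (by omega) le_rfl
  have ym : XX X.cj X.ci X.m = X.D.c X.w0 := by
    rw [yk X.m (by omega) le_rfl, hqm]
  -- the coordinates of the good elements
  have good : ∀ Y, Gd (dl X.a) (XX X.ci X.cj) (XX X.cj X.ci) X.m (X.D.c X.w0) Y →
      (∀ z, z ≠ X.w0 → DegLE X.a (b.repr Y z)) ∧ b.repr Y 1 = 0 := by
    rintro Y ⟨κ, hκ, hY⟩
    have key : (∀ z, z ≠ X.w0 → ∃ n : ℤ, b.repr Y z = κ * n) ∧ b.repr Y 1 = 0 := by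
      rcases hY with hY | hY
      · exact Sg_repr b (p := X.p) (fun k hk1 hk2 => by rw [hb]; exact xk k hk1 hk2) (hb _).symm hpk1 w01 hY
      · exact Sg_repr b (p := X.q) (fun k hk1 hk2 => by rw [hb]; exact yk k hk1 hk2) (hb _).symm hqk1 w01 hY
    refine ⟨fun z hz => ?_, key.2⟩
    obtain ⟨n, hn⟩ := key.1 z hz
    rw [hn]
    refine DegLE.mul_le (k := X.a) (l := 0) ?_ (DegLE.intCast n le_rfl) (by omega)
    rcases hκ with rfl | rfl
    · exact DegLE.one (by omega)
    · exact DegLE.dl _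
  have mid : ∀ x y, x ≠ 1 → x ≠ X.w0 → y ≠ 1 → y ≠ X.w0 →
      (∀ z, z ≠ X.w0 → DegLE X.a (X.h x y z)) ∧ X.h x y 1 = 0 := by
    intro x y hx1 hx0 hy1 hy0
    have G : Gd (dl X.a) (XX X.ci X.cj) (XX X.cj X.ci) X.m (X.D.c X.w0) (X.D.c x * X.D.c y) := by
      obtain ⟨k, hk1, hk2, hx⟩ := ((cases x).resolve_left hx1).resolve_left hx0
      obtain ⟨l, hl1, hl2, hy⟩ := ((cases y).resolve_left hy1).resolve_left hy0
      rcases hy with rfl | rfl
      · have := Gd_mul hii t1 xm t2' ym k l hl1 hl2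
        rcases hx with rfl | rfl
        · rw [← xk k hk1 (by omega), ← xk l hl1 (by omega)]
          exact this.1
        · rw [← yk k hk1 (by omega), ← xk l hl1 (by omega)]
          exact this.2
      · have := Gd_mul hjj t2' ym t1 xm k l hl1 hl2
        rcases hx with rfl | rfl
        · rw [← xk k hk1 (by omega), ← yk l hl1 (by omega)]
          exact Gd_symm this.2
        · rw [← yk k hk1 (by omega), ← yk l hl1 (by omega)]
          exact Gd_symm this.1
    have := good _ G
    rw [hxy]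
    exact this
  have hx1 : ∀ x z, X.h x 1 z = if x = z then 1 else 0 := by
    intro x z
    rw [hxy, c8, mul_one, ← hb, Module.Basis.repr_self, Finsupp.single_apply]
  have h1x : ∀ x z, X.h 1 x z = if x = z then 1 else 0 := by
    intro x z
    rw [hxy, c8, one_mul, ← hb, Module.Basis.repr_self, Finsupp.single_apply]
  have deg01 : ∀ (x z : W) (k : ℤ), 0 ≤ k → DegLE k (if x = z then (1 : ℤ[T;T⁻¹]) else 0) := by
    intro x z k hk
    split_ifs
    · exact DegLE.one hk
    · exact DegLE.zero k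
  -- coordinates at the elements different from w0
  have zz : ∀ x y z, z ≠ X.w0 → DegLE X.a (X.h x y z) := by
    intro x y z hz
    by_cases e1 : x = 1
    · rw [e1, h1x]; exact deg01 _ _ _ (by omega)
    by_cases e2 : y = 1
    · rw [e2, hx1]; exact deg01 _ _ _ (by omega)
    by_cases e3 : x = X.w0
    · rw [e3, (t5 y z hz).2]; exact DegLE.zero _
    by_cases e4 : y = X.w0
    · rw [e4, (t5 x z hz).1]; exact DegLE.zero _
    exact (mid x y e1 e3 e2 e4).1 z hz
  have z1 : ∀ x y, X.h x y 1 ≠ 0 → x = 1 ∧ y = 1 := by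
    intro x y hh
    by_cases e1 : x = 1
    · refine ⟨e1, ?_⟩
      rw [e1, h1x] at hh
      by_contra h
      exact hh (if_neg h)
    by_cases e2 : y = 1
    · refine ⟨?_, e2⟩
      rw [e2, hx1] at hh
      by_contra h
      exact hh (if_neg h)
    by_cases e3 : x = X.w0
    · rw [e3, (t5 y 1 w01.symm).2] at hh; exact absurd rfl hh
    by_cases e4 : y = X.w0
    · rw [e4, (t5 x 1 w01.symm).1] at hh; exact absurd rfl hh
    exact absurd (mid x y e1 e3 e2 e4).2 hh
  have h111 : X.h 1 1 1 = 1 := by rw [h1x, if_pos rfl]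
  -- the function a
  let af : W → ℕ := fun w => if w = 1 then 0 else if w = X.w0 then X.L X.w0 else X.a
  have af1 : af 1 = 0 := if_pos rfl
  have af0 : af X.w0 = X.L X.w0 := by
    change (if X.w0 = 1 then 0 else if X.w0 = X.w0 then X.L X.w0 else X.a) = _
    rw [if_neg w01, if_pos rfl]
  have afm : ∀ w, w ≠ 1 → w ≠ X.w0 → af w = X.a := by
    intro w h4 h5
    change (if w = 1 then 0 else if w = X.w0 then X.L X.w0 else X.a) = _
    rw [if_neg h4, if_neg h5]
  have af_le : ∀ w, af w ≤ X.L X.w0 := by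
    intro w
    by_cases e1 : w = 1
    · rw [e1, af1]; exact Nat.zero_le _
    by_cases e2 : w = X.w0
    · rw [e2, af0]
    rw [afm w e1 e2]; exact haL.le
  have up' : ∀ z, z ≠ X.w0 → ∀ x y, DegLE (af z) (X.h x y z) := by
    intro z hz x y
    by_cases e1 : z = 1
    · subst e1
      rw [af1]
      by_cases e2 : X.h x y 1 = 0
      · rw [e2]; exact DegLE.zero _
      · obtain ⟨rfl, rfl⟩ := z1 x y e2
        rw [h111]
        exact DegLE.one (by simp)
    · rw [afm z e1 hz]
      exact zz x y z hz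
  have up0 := t8 af (fun z hz => ⟨by have := af_le z; have := Lw z hz; omega, up' z hz⟩)
  have up : ∀ z x y, DegLE (af z) (X.h x y z) := by
    intro z x y
    by_cases e1 : z = X.w0
    · rw [e1, af0]
      exact (up0 x y).1
    · exact up' z e1 x y
  -- left descents of the middle elements
  have desc : ∀ z, z ≠ 1 → z ≠ X.w0 → ∃ u : I, X.L (X.cs.simple u) = X.a ∧
      X.D.c (X.cs.simple u) * X.D.c z = dl X.a • X.D.c z := by
    intro z hz1 hz0
    obtain ⟨k, hk1, hk2, hz⟩ := ((cases z).resolve_left hz1).resolve_left hz0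
    rcases hz with rfl | rfl
    · refine ⟨X.i, rfl, ?_⟩
      rw [← xk k hk1 (by omega)]
      exact XX_mul_left hii k
    · refine ⟨X.j, hab.symm, ?_⟩
      rw [← yk k hk1 (by omega)]
      exact XX_mul_left hjj k
  refine ⟨af, X.isH, ?_, ?_, ?_, ?_⟩
  · -- IsA
    intro z
    refine ⟨up z, ?_⟩
    by_cases e1 : z = 1
    · refine ⟨1, 1, fun h => ?_⟩
      rw [e1, af1, h111] at h
      have h4 := h 0 (by simp)
      rw [← T_zero, T_apply, if_pos rfl] at h4
      exact one_ne_zero h4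
    by_cases e2 : z = X.w0
    · refine ⟨X.w0, X.w0, fun h => ?_⟩
      rw [e2, af0] at h
      exact t7 (h _ (by omega))
    · obtain ⟨u, -, hu⟩ := desc z e1 e2
      refine ⟨X.cs.simple u, z, fun h => ?_⟩
      rw [afm z e1 e2, hxy, hu, map_smul, ← hb z, Module.Basis.repr_self, Finsupp.smul_apply,
        Finsupp.single_apply, if_pos rfl, smul_eq_mul, mul_one] at h
      have h4 := h X.a (by omega)
      rw [dl_coeff ha0] at h4
      exact one_ne_zero h4
  · -- P1
    intro z
    by_cases e1 : z = 1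
    · rw [e1, af1, c4]
      exact DegLE.one (by simp)
    by_cases e2 : z = X.w0
    · rw [e2, af0, t6, L1]
      exact DegLE.T_le (by simp)
    · obtain ⟨u, hLu, hu⟩ := desc z e1 e2
      rw [afm z e1 e2]
      have tau : ∀ Y : H, X.D.t.repr (X.D.t (X.cs.simple u) * Y) 1 = X.D.t.repr Y (X.cs.simple u) := by
        intro Y
        have e3 : ((Finsupp.lapply 1).comp (X.D.t.repr.toLinearMap.comp
            (LinearMap.mulLeft ℤ[T;T⁻¹] (X.D.t (X.cs.simple u))))) =
            (Finsupp.lapply (X.cs.simple u)).comp X.D.t.repr.toLinearMap := by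
          refine X.D.t.ext fun w => ?_
          change X.D.t.repr (X.D.t (X.cs.simple u) * X.D.t w) 1 = X.D.t.repr (X.D.t w) (X.cs.simple u)
          rw [Module.Basis.repr_self, Finsupp.single_apply]
          by_cases hw : w = X.cs.simple u
          · rw [if_pos hw]
            apply tau1
            rw [hw, X.cs.simple_mul_simple_self]
          · rw [if_neg hw]
            apply tau0
            intro h
            apply hw
            rw [← X.cs.inv_simple u]
            exact (inv_eq_of_mul_eq_one_right h).symm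
        exact LinearMap.congr_fun e3 Y
      have e3 : X.D.t (X.cs.simple u) * X.D.c z = (T (X.a : ℤ) : ℤ[T;T⁻¹]) • X.D.c z := by
        have e4 := hu
        rw [c9 u, add_mul, smul_mul_assoc, one_mul, hLu] at e4
        unfold dl at e4
        rw [add_smul] at e4
        exact add_right_cancel e4
      have e5 := tau (X.D.c z)
      rw [e3, map_smul, Finsupp.smul_apply, smul_eq_mul] at e5
      have e6 : X.D.t.repr (X.D.c z) 1 = T (-(X.a : ℤ)) * X.D.t.repr (X.D.c z) (X.cs.simple u) := by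
        rw [← e5, ← mul_assoc, ← T_add, neg_add_cancel, T_zero, one_mul]
      rw [e6]
      refine DegLE.mul_le (k := -(X.a : ℤ)) (l := 0) (DegLE.T_le le_rfl) ?_ (by omega)
      by_cases e7 : X.cs.simple u = z
      · rw [e7, c4]
        exact DegLE.one le_rfl
      · exact (c6 z _ e7).mono (by omega)
  · -- P4
    intro x y z hh
    by_cases e1 : z = 1
    · rw [e1] at hh ⊢
      obtain ⟨rfl, rfl⟩ := z1 x y hh
      exact ⟨le_rfl, le_rfl⟩
    by_cases e2 : z = X.w0
    · rw [e2, af0]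
      exact ⟨af_le x, af_le y⟩
    · have e3 : x ≠ X.w0 := by
        intro h
        rw [h, (t5 y z e2).2] at hh
        exact hh rfl
      have e4 : y ≠ X.w0 := by
        intro h
        rw [h, (t5 x z e2).1] at hh
        exact hh rfl
      have key : ∀ w, w ≠ X.w0 → af w ≤ X.a := by
        intro w hw
        by_cases e5 : w = 1
        · rw [e5, af1]; exact Nat.zero_le _
        · rw [afm w e5 hw]
      rw [afm z e1 e2]
      exact ⟨key x e3, key y e4⟩
  · -- P8
    intro x y z hh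
    unfold gam at hh
    by_cases e1 : z = 1
    · have h4 : X.h x y 1 ≠ 0 := by
        intro h
        rw [e1, h] at hh
        exact hh rfl
      rw [e1]
      obtain ⟨rfl, rfl⟩ := z1 x y h4
      exact ⟨rfl, rfl⟩
    by_cases e2 : z = X.w0
    · rw [e2, af0] at hh
      by_cases e3 : x ≠ X.w0 ∨ y ≠ X.w0
      · exact absurd ((up0 x y).2 e3 _ (by omega)) hh
      · push Not at e3
        rw [e2, e3.1, e3.2]
        exact ⟨rfl, rfl⟩
    · rw [afm z e1 e2] at hh ⊢
      have e0 : X.h x y z ≠ 0 := by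
        intro h
        rw [h] at hh
        exact hh rfl
      have e3 : x ≠ X.w0 := by
        intro h
        rw [h, (t5 y z e2).2] at e0
        exact e0 rfl
      have e4 : y ≠ X.w0 := by
        intro h
        rw [h, (t5 x z e2).1] at e0
        exact e0 rfl
      have e5 : x ≠ 1 := by
        intro h
        rw [h, h1x] at hh
        exact hh (deg01 y z 0 le_rfl _ (by omega))
      have e6 : y ≠ 1 := by
        intro h
        rw [h, hx1] at hh
        exact hh (deg01 x z 0 le_rfl _ (by omega))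
      exact ⟨afm x e5 e3, afm y e6 e4⟩

end Pool.Agent.Helper88.RA
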